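import Pool.Agent.H27.L1.H34.GHK.All
import Pool.Agent.H27.L1.H34.GZZ.HYZ

/-!
Board zn: almost all zeros of almost all L-functions of cusp forms on GL(m) are near the critical line.
-/

set_option autoImplicit false

namespace Pool.Agent.H34.ZN

open MeasureTheory Pool.Agent.H27.L1.H34.GM Pool.Agent.H27.L1.H34.GZ Pool.Agent.H27.L1.H34.GU
  Pool.Agent.H27.L1.H34.GA

/-- Jensen's inequality for a finite set of zeros -/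
def T_JEN : Prop := ∀ (L : ℂ → ℂ) (s0 : ℂ) (R r M : ℝ), Differentiable ℂ L → 0 < r → r < R →
  (∀ s, ‖s - s0‖ ≤ R → ‖L s‖ ≤ M) → 1 / 2 ≤ ‖L s0‖ →
  ∀ Z : Finset ℂ, (∀ ρ ∈ Z, ‖ρ - s0‖ ≤ r) →
    (∑ ρ ∈ Z, (analyticOrderNatAt L ρ : ℝ)) * Real.log (R / r) ≤ Real.log (2 * M)

/-- far to the right the L-function is near `1` -/
def T_FAR : Prop := ∀ m : ℕ, 1 ≤ m → ∃ σ2 : ℝ, 1 ≤ σ2 ∧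
  ∀ (N : ℕ) [NeZero N] (T : ℕ → Finset (ZM m)) (D : Set (V m)), SysZ m N T D →
  ∀ (F : Mat m → VN m N → ℂ) (lam : ℕ → ℂ), CusB m N T F lam → NZ F →
  ∀ L : ℂ → ℂ, IsL m 1 lam L → ∀ s : ℂ, σ2 ≤ s.re → ‖L s - 1‖ ≤ 1 / 2

/-- the Mellin transform of a sum is bounded on vertical strips -/
def T_LMS : Prop := ∀ (m : ℕ) (lam : ℕ → ℂ) (ψ : ℝ → ℂ) (B r0 a b : ℝ), 1 ≤ m → 1 ≤ r0 →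
  ContinuousOn ψ (Set.Ioi 0) → (∀ r : ℝ, 0 < r → ψ r ≠ 0 → r0⁻¹ ≤ r ∧ r ≤ r0) →
  (∀ n : ℕ, 1 ≤ n → ‖(n : ℂ) ^ (((m : ℂ) - 1) / 2) * lam n‖ ≤ B * (n : ℝ) ^ m) →
  Wc m ψ lam → ∃ C : ℝ, ∀ s : ℂ, a ≤ s.re → s.re ≤ b → ‖LmA m ψ lam s‖ ≤ C

/-- the Mellin transform of a bounded weight function on vertical strips -/
def T_MMS : Prop := ∀ (m : ℕ) (r0 M σ1 : ℝ), 1 ≤ m → 1 ≤ r0 → 1 ≤ σ1 → ∃ C : ℝ, 0 < C ∧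
  ∀ ψ : ℝ → ℂ, ContinuousOn ψ (Set.Ioi 0) →
  (∀ r : ℝ, 0 < r → ψ r ≠ 0 → r0⁻¹ ≤ r ∧ r ≤ r0) → (∀ r : ℝ, 0 < r → ‖ψ r‖ ≤ M) →
  ∀ s : ℂ, 1 / 2 ≤ s.re → s.re ≤ σ1 → ‖MelA m ψ s‖ ≤ C

/-- the L-function to the right of the critical line against its values on the line -/
def T_STR : Prop := ∀ (m K : ℕ), 1 ≤ m → ∀ (d σ1 H : ℝ), 0 < d → d ≤ 1 → 1 ≤ σ1 → 0 ≤ H →
  ∃ C : ℝ, 0 < C ∧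
  ∀ (N : ℕ) [NeZero N] (T : ℕ → Finset (ZM m)) (D : Set (V m)), SysZ m N T D →
  ∀ (F : Mat m → VN m N → ℂ) (lam : ℕ → ℂ) (P : ℝ), CusB m N T F lam →
  nU D F = 1 → Lip D F P → 1 ≤ P → ∀ L : ℂ → ℂ, IsL m 1 lam L →
  (∀ s : ℂ, σ1 ≤ s.re → ‖L s‖ ≤ 2) → ∀ t A : ℝ, |t| ≤ P → 1 ≤ A →
  (∀ u : ℝ, ‖L (1 / 2 + u * Complex.I)‖ ≤ A * (1 + |u - t|) ^ K) →
  ∀ s : ℂ, 1 / 2 + d ≤ s.re → s.re ≤ σ1 → |s.im - t| ≤ H → ‖L s‖ ≤ C * A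

/-- the zeros near one point -/
def T_ZRO : Prop := ∀ (m K : ℕ), 1 ≤ m → ∀ d : ℝ, 0 < d → ∃ C : ℝ, 0 < C ∧
  ∀ (N : ℕ) [NeZero N] (T : ℕ → Finset (ZM m)) (D : Set (V m)), SysZ m N T D →
  ∀ (F : Mat m → VN m N → ℂ) (lam : ℕ → ℂ) (P : ℝ), CusB m N T F lam →
  nU D F = 1 → Lip D F P → 1 ≤ P → ∀ L : ℂ → ℂ, IsL m 1 lam L → ∀ t A : ℝ, |t| ≤ P → 1 ≤ A →
  (∀ u : ℝ, ‖L (1 / 2 + u * Complex.I)‖ ≤ A * (1 + |u - t|) ^ K) →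
  ∀ Z : Finset ℂ, (∀ ρ ∈ Z, 1 / 2 + d ≤ ρ.re ∧ |ρ.im - t| ≤ 1) →
    ∑ ρ ∈ Z, (analyticOrderNatAt L ρ : ℝ) ≤ C * (1 + Real.log A)

end Pool.Agent.H34.ZN
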