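import Pool.Agent.H34.ZN.Targets2

/-!
Row STR: the L-function to the right of the critical line against its values on the line.
-/

set_option autoImplicit false

namespace Pool.Agent.H34.ZN

open MeasureTheory Pool.Agent.H27.L1.H34.GM Pool.Agent.H27.L1.H34.GZ Pool.Agent.H27.L1.H34.GU
  Pool.Agent.H27.L1.H34.GA
open Pool.Agent.H27.L1.H23.GB Pool.Agent.H27.L1.H69.GA Pool.Agent.H27.L1.H69.GB
  Pool.Agent.H27.L1.H68.GHY Pool.Agent.H27.L1.H34.GHY Pool.Agent.H27.L1.H34.GZZ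

/-- the last step at one point -/
theorem str_fin {x Pm Q Z Rn cz Cz G A E W : ℝ} (hx : 0 ≤ x) (hcz : 0 < cz) (hRn : 0 < Rn)
    (hQ : 1 ≤ Q) (hW : x * Z = W) (hZ : cz * Rn⁻¹ * (Pm * Q) ≤ Z)
    (hA : W ≤ G * (2 * A * E * (Cz * Rn⁻¹ * Q))) :
    x * Pm ≤ G * (2 * A * E * Cz) * cz⁻¹ := by
  have hQ0 : 0 < Q := by linarith
  have h1 : x * (cz * Rn⁻¹ * (Pm * Q)) ≤ G * (2 * A * E * (Cz * Rn⁻¹ * Q)) :=
    (mul_le_mul_of_nonneg_left hZ hx).trans (hW.le.trans hA)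
  have h2 : x * Pm = x * (cz * Rn⁻¹ * (Pm * Q)) * (cz⁻¹ * Rn * Q⁻¹) := by
    field_simp
  rw [h2]
  calc x * (cz * Rn⁻¹ * (Pm * Q)) * (cz⁻¹ * Rn * Q⁻¹) ≤
        G * (2 * A * E * (Cz * Rn⁻¹ * Q)) * (cz⁻¹ * Rn * Q⁻¹) :=
        mul_le_mul_of_nonneg_right h1 (by positivity)
    _ = _ := by field_simp

theorem pf_STR (hPRF : T_PRF) (hZPS : T_ZPS) (hZES : T_ZES) (hPLG : T_PLG) (hLMS : T_LMS)
    (hLMB : Pool.Agent.H27.L1.H23.GB.T_LMB) (hZPB : T_ZPB)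
    (hMLZ : T_MLZ) (hENA : T_ENA) (hCNR : T_CNR) (hCFA : T_CFA)
    (hSMA : Pool.Agent.H27.L1.H34.GA.T_SMA)
    (hPHB : T_PHB) (hTAY : Pool.Agent.H27.L1.H34.GZZ.T_TAY) (hCIZ : T_CIZ) (hMED : T_MED) : T_STR := by
  obtain ⟨χ, hχ⟩ := hPRF
  intro m K hm d σ1 H hd hd1 hσ1 hH
  have hmR : (1 : ℝ) ≤ m := by exact_mod_cast hm
  obtain ⟨B, hB, hLam⟩ := hLMB m hm
  obtain ⟨r0, hr0, hZ0⟩ := hZPB m χ 0 hm hχ
  obtain ⟨CN, hCN, hNR⟩ := hCNR m hm
  obtain ⟨cT, cT2, CT, hcT, hcT2, hCT, hT⟩ := hTAY m χ hm hχ CN hCN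
  obtain ⟨CS, hCS, hZS⟩ := hZPS m χ (σ1 + 1) hm hχ (by linarith)
  obtain ⟨n0, R0, cz, Cz, hcz, hCz, hR0, hZE⟩ := hZES (max CT CS) cT2 (σ1 + 1) (σ1 + H + 2)
    hcT2 (by linarith) (by linarith)
  obtain ⟨CG, hCG, hPL⟩ := hPLG (K + n0) (σ1 + 1) (by linarith)
  obtain ⟨CC, hCC, hC⟩ := hCIZ n0 (d / 2) (by positivity)
  obtain ⟨CP, cP, AP, hCP, hcP, hP⟩ := hPHB χ hχ m hm 1 0 one_pos
  have hCN0 : 0 < CN := by linarith
  obtain ⟨c, hc, hc2, hcT1, hcR⟩ : ∃ c : ℝ, 0 < c ∧ c ≤ 1 / 2 ∧ c * 4 ≤ cT ∧ c ≤ R0⁻¹ := by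
    refine ⟨min (1 / 2) (min (cT / 4) R0⁻¹), lt_min (by norm_num) (lt_min (by positivity)
      (by positivity)), min_le_left _ _, ?_, (min_le_right _ _).trans (min_le_right _ _)⟩
    have h1 : min (1 / 2) (min (cT / 4) R0⁻¹) ≤ cT / 4 :=
      (min_le_right _ _).trans (min_le_left _ _)
    linarith
  obtain ⟨E, hE⟩ : ∃ E : ℝ, E = (H + 2) ^ K * (σ1 + 2) ^ n0 := ⟨_, rfl⟩
  have hE0 : 0 < E := by
    rw [hE]
    positivity
  refine ⟨CC * (CG * (2 * E * Cz) * cz⁻¹), by positivity, ?_⟩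
  intro N _ T D hS F lam P hF hn hLip hP1 L hLL hL2 t A ht hA1 hline
  have hNZ : NZ F := spx_nz hS (by rw [hn]; exact one_ne_zero)
  have hP0 : 0 < P := by linarith
  have hA0 : 0 < A := by linarith
  have hc1 : Cof m (c1 D F) 1 := by
    have h1 := hCFA m N T D hS F lam hF.toHecA
    rw [hn] at h1
    exact h1
  have hlam := hLam N T D hS F lam hF.toHecA hNZ
  obtain ⟨δ, hδd⟩ : ∃ δ : ℝ, δ = c / P := ⟨_, rfl⟩
  have hδ0 : 0 < δ := by
    rw [hδd]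
    positivity
  have hδP : δ * P = c := by
    rw [hδd]
    field_simp
  have hδc : δ ≤ c := by
    rw [hδd]
    exact div_le_self hc.le hP1
  have hδ2 : δ ≤ 1 / 2 := hδc.trans hc2
  obtain ⟨hΦ, hΦ0, hΦW, -⟩ := hP δ hδ0 hδ2
  have hZ3 := (hZ0 δ hδ0 hδ2 (c1 D F) hc1).2.2
  -- the zeta integral on the disc
  have hs0 : δ * (1 + P + ‖(1 / 2 + t * Complex.I : ℂ)‖) ≤ cT := by
    have h4 : ‖(1 / 2 + t * Complex.I : ℂ)‖ ≤ 1 / 2 + |t| := by
      refine (norm_add_le _ _).trans (le_of_eq ?_)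
      rw [norm_mul, Complex.norm_I, mul_one, Complex.norm_real, Real.norm_eq_abs]
      norm_num
    have h6 : 1 + P + ‖(1 / 2 + t * Complex.I : ℂ)‖ ≤ 4 * P := by
      linarith
    calc δ * (1 + P + ‖(1 / 2 + t * Complex.I : ℂ)‖) ≤ δ * (4 * P) :=
          mul_le_mul_of_nonneg_left h6 hδ0.le
      _ = (δ * P) * 4 := by ring
      _ = c * 4 := by rw [hδP]
      _ ≤ cT := hcT1
  obtain ⟨hZd, s1, hs1, hs1'⟩ := hT (c1 D F) P (1 / 2 + t * Complex.I) δ hc1.meas hc1.bd hP0.le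
    (fun w hw => hNR N T D hS F lam hF.toHecA hn P hLip hP0.le w hw) hδ0 hs0
  have hZv := hZS δ hδ0 hδ2 (c1 D F) hc1
  obtain ⟨Φ, hΦd⟩ : ∃ Φ : Mat m → ℂ, Φ = dD^[m] (bi m χ δ) := ⟨_, rfl⟩
  rw [← hΦd] at hΦ hΦ0 hΦW hZ3 hs1'
  simp only [← hΦd] at hZd hZv
  have hAd : Adm F (Pool.Agent.H27.L1.H34.GA.cf Φ) := Or.inr hΦ0
  have hWc := hSMA m N T D hS F lam hF hNZ Φ hΦ hAd
  obtain ⟨L', hL', hLW'⟩ := hENA m N T D hS F lam hF hNZ
  have hLe : L = L' := isl_uniq hLL hL'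
  have hLW : ∀ s : ℂ, LmA m (uu Φ (c1 D F)) lam s = L s * MelA m (uu Φ (c1 D F)) s := by
    rw [hLe]
    exact hLW' _ hWc
  obtain ⟨-, hcψ, hMel⟩ := hMLZ m hm (c1 D F) 1 hc1 Φ hΦ.toTg
  have hMd : Differentiable ℂ (MelA m (uu Φ (c1 D F))) := hMED m r0 _ hm hr0 hcψ hZ3
  have hWd : Differentiable ℂ (LmA m (uu Φ (c1 D F)) lam) := by
    rw [funext hLW]
    exact hLL.1.mul hMd
  obtain ⟨CB, hCB⟩ := hLMS m lam (uu Φ (c1 D F)) B r0 (1 / 2) (σ1 + 1) hm hr0 hcψ hZ3 hlam hWc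
  -- the zeros
  have hRR : R0 ≤ δ⁻¹ := by
    rw [le_inv_comm₀ hR0 hδ0]
    exact hδc.trans hcR
  obtain ⟨n, z, hn0, hzz⟩ := hZE (MelA m (uu Φ (c1 D F))) t δ⁻¹ hMd hRR
    (fun s hs => by
      rw [hMel]
      exact (hZd s hs).trans (le_max_left _ _))
    (fun s hs hs' => by
      rw [hMel]
      exact (hZv s hs hs').trans (le_max_right _ _))
    ⟨s1, hs1, by
      rw [hMel]
      exact hs1'⟩
  intro s hsre hsre1 hsim
  -- one point of the disc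
  have hpt : ∀ s' : ℂ, ‖s' - s‖ ≤ d / 2 → ‖L s'‖ * ∏ i, min 1 ‖s' - z i‖ ≤
      CG * (2 * A * E * Cz) * cz⁻¹ := by
    intro s' hs'
    have him : |s'.im - s.im| ≤ d / 2 := by
      have h2 := Complex.abs_im_le_norm (s' - s)
      rw [Complex.sub_im] at h2
      exact h2.trans hs'
    have hre : |s'.re - s.re| ≤ d / 2 := by
      have h2 := Complex.abs_re_le_norm (s' - s)
      rw [Complex.sub_re] at h2
      exact h2.trans hs'
    have hre1 : 1 / 2 ≤ s'.re := by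
      have := (abs_le.1 hre).1
      linarith
    have hre2 : s'.re ≤ σ1 + 1 := by
      have := (abs_le.1 hre).2
      linarith
    have him2 : |s'.im - t| ≤ H + 1 := by
      have h3 := abs_add_le (s'.im - s.im) (s.im - t)
      rw [show s'.im - s.im + (s.im - t) = s'.im - t by ring] at h3
      linarith
    have hdist : ‖s' - (1 / 2 + t * Complex.I)‖ ≤ σ1 + H + 2 := by
      have h3 := Complex.norm_le_abs_re_add_abs_im (s' - (1 / 2 + t * Complex.I))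
      have e1 : (s' - (1 / 2 + t * Complex.I)).re = s'.re - 1 / 2 := by simp
      have e2 : (s' - (1 / 2 + t * Complex.I)).im = s'.im - t := by simp
      rw [e1, e2, abs_of_nonneg (by linarith : 0 ≤ s'.re - 1 / 2)] at h3
      linarith
    obtain ⟨hlo, hup⟩ := hzz s' hdist
    obtain ⟨Q, hQ⟩ : ∃ Q : ℝ, Q = ∏ i, max 1 ‖s' - z i‖ := ⟨_, rfl⟩
    have hQ1 : 1 ≤ Q := by
      rw [hQ]
      calc (1 : ℝ) = ∏ _i : Fin n, (1 : ℝ) := Finset.prod_const_one.symm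
        _ ≤ _ := Finset.prod_le_prod (fun _ _ => zero_le_one) fun i _ => le_max_left _ _
    rw [← hQ] at hlo hup
    have hM0 : 0 < Cz * (δ⁻¹ ^ n)⁻¹ * Q := by positivity
    -- the distance to the point
    have hgr : ∀ (a u : ℝ), 1 / 2 ≤ a → a ≤ σ1 + 1 →
        (1 + ‖((a : ℂ) + u * Complex.I) - s'‖) ^ n ≤ (σ1 + 2) ^ n0 * (1 + |u - s'.im|) ^ n0 := by
      intro a u ha1 ha2
      have h3 := Complex.norm_le_abs_re_add_abs_im (((a : ℂ) + u * Complex.I) - s')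
      have e1 : (((a : ℂ) + u * Complex.I) - s').re = a - s'.re := by simp
      have e2 : (((a : ℂ) + u * Complex.I) - s').im = u - s'.im := by simp
      rw [e1, e2] at h3
      have h4 : |a - s'.re| ≤ σ1 + 1 := by
        rw [abs_le]
        constructor <;> linarith
      have h5 : 0 ≤ |u - s'.im| := abs_nonneg _
      have h6 : 1 + ‖((a : ℂ) + u * Complex.I) - s'‖ ≤ (σ1 + 2) * (1 + |u - s'.im|) := by
        nlinarith
      calc (1 + ‖((a : ℂ) + u * Complex.I) - s'‖) ^ n ≤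
            (1 + ‖((a : ℂ) + u * Complex.I) - s'‖) ^ n0 :=
            pow_le_pow_right₀ (by linarith [norm_nonneg (((a : ℂ) + u * Complex.I) - s')]) hn0
        _ ≤ ((σ1 + 2) * (1 + |u - s'.im|)) ^ n0 := pow_le_pow_left₀ (by positivity) h6 n0
        _ = _ := mul_pow _ _ _
    have hx1 : ∀ u : ℝ, (1 + |u - s'.im|) ^ n0 ≤ (1 + |u - s'.im|) ^ (K + n0) := fun u =>
      pow_le_pow_right₀ (by linarith [abs_nonneg (u - s'.im)]) (by omega)
    have hHK : (1 : ℝ) ≤ (H + 2) ^ K := one_le_pow₀ (by linarith)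
    have hfin := hPL (LmA m (uu Φ (c1 D F)) lam) CB (2 * A * E * (Cz * (δ⁻¹ ^ n)⁻¹ * Q)) s' hWd
      (fun w hw1 hw2 => hCB w hw1 hw2) (by positivity) hre1 hre2
      (by
        intro u
        rw [hLW, norm_mul]
        have h3 := hline u
        have h4 := hup ((1 / 2 : ℝ) + u * Complex.I) (by simp) (by simp; linarith)
        have e : (((1 / 2 : ℝ) : ℂ) + u * Complex.I) = 1 / 2 + u * Complex.I := by
          push_cast
          ring
        have h5 := hgr (1 / 2) u le_rfl (by linarith)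
        rw [e] at h4 h5
        have h6 : (1 + |u - t|) ^ K ≤ (H + 2) ^ K * (1 + |u - s'.im|) ^ K := by
          rw [← mul_pow]
          refine pow_le_pow_left₀ (by positivity) ?_ K
          have h7 : |u - t| ≤ |u - s'.im| + |s'.im - t| := by
            have h8 := abs_add_le (u - s'.im) (s'.im - t)
            rwa [show u - s'.im + (s'.im - t) = u - t by ring] at h8
          have h9 : 0 ≤ |u - s'.im| := abs_nonneg _
          nlinarith
        calc ‖L (1 / 2 + u * Complex.I)‖ * ‖MelA m (uu Φ (c1 D F)) (1 / 2 + u * Complex.I)‖ ≤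
              (A * ((H + 2) ^ K * (1 + |u - s'.im|) ^ K)) *
              ((Cz * (δ⁻¹ ^ n)⁻¹ * Q) * ((σ1 + 2) ^ n0 * (1 + |u - s'.im|) ^ n0)) :=
              mul_le_mul (h3.trans (mul_le_mul_of_nonneg_left h6 hA0.le))
                (h4.trans (mul_le_mul_of_nonneg_left h5 hM0.le)) (norm_nonneg _) (by positivity)
          _ = A * E * (Cz * (δ⁻¹ ^ n)⁻¹ * Q) * (1 + |u - s'.im|) ^ (K + n0) := by
              rw [hE, pow_add]
              ring
          _ ≤ 2 * A * E * (Cz * (δ⁻¹ ^ n)⁻¹ * Q) * (1 + |u - s'.im|) ^ (K + n0) := by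
              refine mul_le_mul_of_nonneg_right ?_ (by positivity)
              have h8 : 0 ≤ A * E * (Cz * (δ⁻¹ ^ n)⁻¹ * Q) := by positivity
              linarith)
      (by
        intro u
        rw [hLW, norm_mul]
        have h3 := hL2 (((σ1 + 1 : ℝ) : ℂ) + u * Complex.I) (by simp)
        have h4 := hup (((σ1 + 1 : ℝ) : ℂ) + u * Complex.I) (by simp; linarith) (by simp)
        have h5 := hgr (σ1 + 1) u (by linarith) le_rfl
        calc ‖L (((σ1 + 1 : ℝ) : ℂ) + u * Complex.I)‖ *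
              ‖MelA m (uu Φ (c1 D F)) (((σ1 + 1 : ℝ) : ℂ) + u * Complex.I)‖ ≤
              2 * ((Cz * (δ⁻¹ ^ n)⁻¹ * Q) * ((σ1 + 2) ^ n0 * (1 + |u - s'.im|) ^ n0)) :=
              mul_le_mul h3 (h4.trans (mul_le_mul_of_nonneg_left h5 hM0.le)) (norm_nonneg _)
                (by norm_num)
          _ ≤ 2 * ((Cz * (δ⁻¹ ^ n)⁻¹ * Q) * ((σ1 + 2) ^ n0 * (1 + |u - s'.im|) ^ (K + n0))) := by
              have := hx1 u
              gcongr
          _ = 1 * (1 * ((σ1 + 2) ^ n0)) * (2 * (Cz * (δ⁻¹ ^ n)⁻¹ * Q)) *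
                (1 + |u - s'.im|) ^ (K + n0) := by ring
          _ ≤ A * ((H + 2) ^ K * ((σ1 + 2) ^ n0)) * (2 * (Cz * (δ⁻¹ ^ n)⁻¹ * Q)) *
                (1 + |u - s'.im|) ^ (K + n0) := by
              gcongr
          _ = _ := by
              rw [hE]
              ring)
    exact str_fin (norm_nonneg (L s')) hcz (by positivity : 0 < δ⁻¹ ^ n) hQ1
      (by rw [hLW, norm_mul]) hlo hfin
  have hfin := hC n L z s _ hn0 hLL.1 hpt
  refine hfin.trans (le_of_eq ?_)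
  ring

end Pool.Agent.H34.ZN
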