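import Pool.Agent.H34.ZN.Targets

/-!
Board zn: second targets.
-/

set_option autoImplicit false

namespace Pool.Agent.H34.ZN

open MeasureTheory Pool.Agent.H27.L1.H34.GM Pool.Agent.H27.L1.H34.GZ Pool.Agent.H27.L1.H34.GU
  Pool.Agent.H27.L1.H34.GA

/-- the zeta integral on vertical strips (generalizes the second clause of `T_ZPB`) -/
def T_ZPS : Prop := ∀ (m : ℕ) (χ : ℝ → ℝ) (σ1 : ℝ), 1 ≤ m → Prof χ → 1 ≤ σ1 → ∃ C : ℝ, 0 < C ∧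
  ∀ δ : ℝ, 0 < δ → δ ≤ 1 / 2 → ∀ f : Mat m → ℂ, Cof m f 1 → ∀ s : ℂ, 1 / 2 ≤ s.re → s.re ≤ σ1 →
    ‖ZA (dD^[m] (bi m χ δ)) f s‖ ≤ C

/-- growth of a function which is a product of linear factors and a bounded function on a disc -/
def T_ZES : Prop := ∀ (C1 c2 σ1 H : ℝ), 0 < c2 → 1 ≤ σ1 → 0 ≤ H → ∃ (n0 : ℕ) (R0 c C : ℝ),
  0 < c ∧ 0 < C ∧ 0 < R0 ∧
  ∀ (Z : ℂ → ℂ) (t R : ℝ), Differentiable ℂ Z → R0 ≤ R →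
  (∀ s : ℂ, ‖s - (1 / 2 + t * Complex.I)‖ ≤ R → ‖Z s‖ ≤ C1) →
  (∀ s : ℂ, 1 / 2 ≤ s.re → s.re ≤ σ1 → ‖Z s‖ ≤ C1) →
  (∃ s1 : ℂ, ‖s1 - (1 / 2 + t * Complex.I)‖ ≤ R / 16 ∧ c2 ≤ ‖Z s1‖) →
  ∃ (n : ℕ) (z : Fin n → ℂ), n ≤ n0 ∧
    ∀ s : ℂ, ‖s - (1 / 2 + t * Complex.I)‖ ≤ H →
      c * (R ^ n)⁻¹ * ((∏ i, min 1 ‖s - z i‖) * ∏ i, max 1 ‖s - z i‖) ≤ ‖Z s‖ ∧
      ∀ w : ℂ, 1 / 2 ≤ w.re → w.re ≤ σ1 →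
        ‖Z w‖ ≤ (C * (R ^ n)⁻¹ * ∏ i, max 1 ‖s - z i‖) * (1 + ‖w - s‖) ^ n

/-- Phragmen-Lindelof with a Gaussian factor -/
def T_PLG : Prop := ∀ (K : ℕ) (σ1 : ℝ), 1 ≤ σ1 → ∃ C : ℝ, 0 < C ∧
  ∀ (W : ℂ → ℂ) (B A : ℝ) (s : ℂ), Differentiable ℂ W →
  (∀ w : ℂ, 1 / 2 ≤ w.re → w.re ≤ σ1 → ‖W w‖ ≤ B) → 0 ≤ A → 1 / 2 ≤ s.re → s.re ≤ σ1 →
  (∀ u : ℝ, ‖W (1 / 2 + u * Complex.I)‖ ≤ A * (1 + |u - s.im|) ^ K) →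
  (∀ u : ℝ, ‖W (σ1 + u * Complex.I)‖ ≤ A * (1 + |u - s.im|) ^ K) →
  ‖W s‖ ≤ C * A

end Pool.Agent.H34.ZN
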