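import Pool.Agent.H27.L1.Fin2
import Pool.Agent.H34.ZN.STR
import Pool.Agent.H12.ZN.JENT
import Pool.Agent.H14.ZN.PLG
import Pool.Agent.H23.ZN.LMS
import Pool.Agent.H31.ZN.FAR
import Pool.Agent.H47.ZN.ZES
import Pool.Agent.H69.ZN.ZRO
import Pool.Agent.H84.ZN.ZPS

/-!
Board zn: everything composed, no hypotheses.
-/

set_option autoImplicit false

namespace Pool.Agent.H34.ZN

open Pool.Agent.H27.L1.H23.GHY.All in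
theorem c_STR : T_STR :=
  pf_STR Pool.Agent.H27.L1.H34.GM.pf_PRF Pool.Agent.H84.ZN.pf_ZPS Pool.Agent.H47.ZN.pf_ZES
    Pool.Agent.H14.ZN.pf_PLG Pool.Agent.H23.ZN.pf_LMS d_LMB d_ZPB
    Pool.Agent.H27.L1.H23.GA.All.c_MLZ Pool.Agent.H27.L1.H23.GA.All.c_ENA
    Pool.Agent.H27.L1.H23.GA.All.c_CNR Pool.Agent.H27.L1.H23.GA.All.c_CFA
    Pool.Agent.H27.L1.H23.GA.All.c_SMA Pool.Agent.H27.L1.H23.GA.All.c_PHB
    Pool.Agent.H27.L1.H16.GZZ.pf_TAY Pool.Agent.H27.L1.H55.GZZ.pf_CIZ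
    Pool.Agent.H27.L1.H84.GZZ.pf_MED

theorem c_ZRO : T_ZRO :=
  Pool.Agent.H69.ZN.pf_ZRO Pool.Agent.H12.ZN.pf_JEN
    (Pool.Agent.H31.ZN.pf_FAR Pool.Agent.H27.L1.H34.GZ.a_TNZ) c_STR

end Pool.Agent.H34.ZN
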